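import Pool.Agent.W748.UK.Main

set_option autoImplicit false

namespace Pool.Agent.W748.UK

open Topology Filter Set

variable {X Y : Type} [TopologicalSpace X] [TopologicalSpace Y]

theorem iInf_unif (t : Finset Y) (s : Set ((Y → ℝ) × (Y → ℝ)))
    (hs : s ∈ ⨅ i ∈ t, Filter.comap (fun a : (Y → ℝ) × (Y → ℝ) => (a.1 i, a.2 i))
      (uniformity ℝ)) :
    ∃ δ : ℝ, 0 < δ ∧ ∀ a b : Y → ℝ, (∀ i ∈ t, |a i - b i| < δ) → (a, b) ∈ s := by
  classical
  induction t using Finset.induction_on generalizing s with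
  | empty =>
    refine ⟨1, one_pos, fun a b _ => ?_⟩
    have : s = Set.univ := by simpa using hs
    rw [this]; trivial
  | insert i t hi ih =>
    rw [Finset.iInf_insert, Filter.mem_inf_iff] at hs
    obtain ⟨s1, hs1, s2, hs2, rfl⟩ := hs
    obtain ⟨δ2, hδ2, h2⟩ := ih s2 hs2
    rw [Filter.mem_comap] at hs1
    obtain ⟨v, hv, hvs⟩ := hs1
    obtain ⟨δ1, hδ1, h1⟩ := Metric.mem_uniformity_dist.1 hv
    refine ⟨min δ1 δ2, lt_min hδ1 hδ2, fun a b hab => ⟨?_, ?_⟩⟩
    · apply hvs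
      apply h1
      rw [Real.dist_eq]
      exact (hab i (Finset.mem_insert_self i t)).trans_le (min_le_left _ _)
    · apply h2
      intro j hj
      exact (hab j (Finset.mem_insert_of_mem hj)).trans_le (min_le_right _ _)

/-- Uniform continuity for the pointwise uniformities, with finite sets and `ε`, `δ`. -/
theorem unif_eps (h : C(X, ℝ) → C(Y, ℝ))
    (hu : @UniformContinuous C(X, ℝ) C(Y, ℝ)
      (UniformSpace.comap (fun f : C(X, ℝ) => (f : X → ℝ)) inferInstance)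
      (UniformSpace.comap (fun f : C(Y, ℝ) => (f : Y → ℝ)) inferInstance) h)
    (y : Y) (ε : ℝ) (hε : 0 < ε) : ∃ F : Finset X, ∃ δ : ℝ, 0 < δ ∧
      ∀ f g : C(X, ℝ), (∀ x ∈ F, |f x - g x| < δ) → |h f y - h g y| < ε := by
  letI : UniformSpace C(X, ℝ) :=
    UniformSpace.comap (fun f : C(X, ℝ) => (f : X → ℝ)) inferInstance
  letI : UniformSpace C(Y, ℝ) :=
    UniformSpace.comap (fun f : C(Y, ℝ) => (f : Y → ℝ)) inferInstance
  have h1 : UniformContinuous (fun f : C(Y, ℝ) => (f : Y → ℝ)) := uniformContinuous_comap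
  have h2 : UniformContinuous (fun f : C(X, ℝ) => h f y) :=
    (Pi.uniformContinuous_proj (fun _ : Y => ℝ) y).comp (h1.comp hu)
  have h3 : {q : ℝ × ℝ | dist q.1 q.2 < ε} ∈ uniformity ℝ := Metric.dist_mem_uniformity hε
  have h4 := h2 h3
  have h5 : (uniformity C(X, ℝ)) = Filter.comap (fun q : C(X, ℝ) × C(X, ℝ) =>
      ((q.1 : X → ℝ), (q.2 : X → ℝ))) (uniformity (X → ℝ)) := rfl
  rw [Filter.mem_map, h5, Filter.mem_comap] at h4
  obtain ⟨s, hs, hss⟩ := h4
  rw [Pi.uniformity, Filter.mem_iInf_finite] at hs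
  obtain ⟨F, hF⟩ := hs
  obtain ⟨δ, hδ, hδF⟩ := iInf_unif F s hF
  refine ⟨F, δ, hδ, fun f g hfg => ?_⟩
  have h6 : (f, g) ∈ (fun q : C(X, ℝ) × C(X, ℝ) => ((q.1 : X → ℝ), (q.2 : X → ℝ))) ⁻¹' s :=
    hδF f g hfg
  have h7 := hss h6
  have h8 : dist (h f y) (h g y) < ε := h7
  rwa [Real.dist_eq] at h8

/-- Continuity for the pointwise topologies, with finite sets and `ε`, `δ`. -/
theorem cont_eps (k : C(Y, ℝ) → C(X, ℝ))
    (hk : @Continuous C(Y, ℝ) C(X, ℝ)
      (TopologicalSpace.induced (fun f : C(Y, ℝ) => (f : Y → ℝ)) inferInstance)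
      (TopologicalSpace.induced (fun f : C(X, ℝ) => (f : X → ℝ)) inferInstance) k)
    (x : X) (φ : C(Y, ℝ)) (ε : ℝ) (hε : 0 < ε) : ∃ J : Finset Y, ∃ δ : ℝ, 0 < δ ∧
      ∀ ψ : C(Y, ℝ), (∀ y ∈ J, |ψ y - φ y| < δ) → |k ψ x - k φ x| < ε := by
  classical
  letI : TopologicalSpace C(Y, ℝ) :=
    TopologicalSpace.induced (fun f : C(Y, ℝ) => (f : Y → ℝ)) inferInstance
  letI : TopologicalSpace C(X, ℝ) :=
    TopologicalSpace.induced (fun f : C(X, ℝ) => (f : X → ℝ)) inferInstance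
  have h1 : Continuous (fun f : C(X, ℝ) => (f : X → ℝ)) := continuous_induced_dom
  have h2 : Continuous (fun ψ : C(Y, ℝ) => k ψ x) :=
    (continuous_apply x).comp (h1.comp hk)
  have h3 : {ψ : C(Y, ℝ) | |k ψ x - k φ x| < ε} ∈ 𝓝 φ := by
    have := h2.continuousAt (x := φ) (Metric.ball_mem_nhds (k φ x) hε)
    refine Filter.mem_of_superset this ?_
    intro ψ hψ
    have h4 : k ψ x ∈ Metric.ball (k φ x) ε := hψ
    rw [Metric.mem_ball, Real.dist_eq] at h4
    exact h4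
  rw [nhds_induced, Filter.mem_comap] at h3
  obtain ⟨s, hs, hss⟩ := h3
  rw [nhds_pi, Filter.mem_pi] at hs
  obtain ⟨I, hI, t, ht, hts⟩ := hs
  have h5 : ∀ i, ∃ δ : ℝ, 0 < δ ∧ Metric.ball (φ i) δ ⊆ t i := fun i => Metric.mem_nhds_iff.1 (ht i)
  choose δ hδ hδt using h5
  obtain ⟨δ0, hδ0, hδ0'⟩ : ∃ δ0 : ℝ, 0 < δ0 ∧ ∀ i ∈ hI.toFinset, δ0 ≤ δ i := by
    induction hI.toFinset using Finset.induction_on with
    | empty => exact ⟨1, one_pos, by simp⟩
    | insert i t' _ ih =>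
      obtain ⟨d, hd, hd'⟩ := ih
      refine ⟨min d (δ i), lt_min hd (hδ i), fun j hj => ?_⟩
      rcases Finset.mem_insert.1 hj with rfl | hj
      · exact min_le_right _ _
      · exact (min_le_left _ _).trans (hd' j hj)
  refine ⟨hI.toFinset, δ0, hδ0, fun ψ hψ => ?_⟩
  have h6 : (ψ : Y → ℝ) ∈ s := by
    apply hts
    intro i hi
    apply hδt i
    rw [Metric.mem_ball, Real.dist_eq]
    exact (hψ i (hI.mem_toFinset.2 hi)).trans_le (hδ0' i (hI.mem_toFinset.2 hi))
  exact hss h6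

/-- A uniformly continuous map is Lipschitz for large distances. -/
theorem coarse (h : C(X, ℝ) → C(Y, ℝ)) (y : Y)
    (hu : ∃ F : Finset X, ∃ δ : ℝ, 0 < δ ∧
      ∀ f g : C(X, ℝ), (∀ x ∈ F, |f x - g x| < δ) → |h f y - h g y| < 1) :
    ∃ F : Finset X, ∃ M : ℝ, ∀ f g : C(X, ℝ), (∀ x ∈ F, |f x - g x| < 1) →
      |h f y - h g y| ≤ M := by
  obtain ⟨F, δ, hδ, hF⟩ := hu
  obtain ⟨N, hN⟩ := exists_nat_gt (1 / δ)
  have hNpos : (0 : ℝ) < N := lt_trans (by positivity) hN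
  refine ⟨F, N, fun f g hfg => ?_⟩
  let q : ℕ → C(X, ℝ) := fun t => g + ((t : ℝ) / N) • (f - g)
  have hq : ∀ t x, q t x = g x + (t : ℝ) / N * (f x - g x) := fun t x => rfl
  have hq0 : q 0 = g := by ext x; rw [hq]; simp
  have hqN : q N = f := by
    ext x
    rw [hq, div_self hNpos.ne']
    ring
  have hstep : ∀ t : ℕ, |h (q t) y - h g y| ≤ t := by
    intro t
    induction t with
    | zero => rw [hq0]; simp
    | succ t ih =>
      have h1 : |h (q (t + 1)) y - h (q t) y| < 1 := by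
        apply hF
        intro x hx
        rw [hq, hq]
        have h2 : g x + ((t + 1 : ℕ) : ℝ) / N * (f x - g x) - (g x + (t : ℝ) / N * (f x - g x)) =
            (f x - g x) / N := by
          push_cast
          field_simp
          ring
        rw [h2, abs_div, abs_of_pos hNpos, div_lt_iff₀ hNpos]
        have h3 := hfg x hx
        have h4 : 1 < δ * N := by
          rw [div_lt_iff₀ hδ] at hN
          linarith
        linarith
      have h5 : h (q (t + 1)) y - h g y = (h (q (t + 1)) y - h (q t) y) + (h (q t) y - h g y) := by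
        ring
      rw [h5]
      push_cast
      refine (abs_add_le _ _).trans ?_
      linarith
  have := hstep N
  rwa [hqN] at this

end Pool.Agent.W748.UK
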