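import Pool.Agent.W748.UK.Core

set_option autoImplicit false

namespace Pool.Agent.W748.UK

open Topology Filter Set

variable {X Y K : Type} [TopologicalSpace X] [TopologicalSpace Y] [TopologicalSpace K]

/-- A bounded function with values in `ℕ` is constant along an ultrafilter. -/
theorem eventually_const (u : Ultrafilter Y) (g : Y → ℕ) (n : ℕ)
    (h : ∀ᶠ y in (u : Filter Y), g y ≤ n) : ∃ a, ∀ᶠ y in (u : Filter Y), g y = a := by
  by_contra hcon
  push Not at hcon
  have h1 : ∀ a, ∀ᶠ y in (u : Filter Y), g y ≠ a := by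
    intro a
    exact hcon a
  have h2 : ∀ᶠ y in (u : Filter Y), ∀ a ∈ Finset.range (n + 1), g y ≠ a := by
    rw [Filter.eventually_all_finset]
    exact fun a _ => h1 a
  obtain ⟨y, hy1, hy2⟩ := (h.and h2).exists
  exact hy2 (g y) (Finset.mem_range.2 (by omega)) rfl

theorem conv [CompactSpace K] [T2Space K] [T35Space Y] (e : C(X, K)) (he : IsEmbedding e)
    (h : C(X, ℝ) → C(Y, ℝ)) (k : C(Y, ℝ) → C(X, ℝ)) (hk : ∀ φ, h (k φ) = φ)
    (hc : ∀ (y : Y) (f : C(X, ℝ)) (ε : ℝ), 0 < ε → ∃ F : Finset X, ∃ δ : ℝ, 0 < δ ∧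
      ∀ g : C(X, ℝ), (∀ x ∈ F, |g x - f x| < δ) → |h g y - h f y| < ε)
    (kc : ∀ (x : X) (φ : C(Y, ℝ)) (ε : ℝ), 0 < ε → ∃ J : Finset Y, ∃ δ : ℝ, 0 < δ ∧
      ∀ ψ : C(Y, ℝ), (∀ y ∈ J, |ψ y - φ y| < δ) → |k ψ x - k φ x| < ε)
    (u : Ultrafilter Y) (B : ℕ → Set K) (hB : ∀ r, IsClosed (B r))
    (hBX : ⋂ r, B r ⊆ Set.range e) (n : ℕ → ℕ) (m : ℕ → ℝ)
    (hs : ∀ r, ∀ᶠ y in (u : Filter Y), ∃ S : Finset K, S.card ≤ n r ∧ (∀ s ∈ S, s ∈ B r) ∧
      Sup e h y S (m r)) : ∃ y0, (u : Filter Y) ≤ 𝓝 y0 := by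
  classical
  -- the supports at each level
  have hS : ∀ r y, ∃ S : Finset K, (∃ S : Finset K, S.card ≤ n r ∧ (∀ s ∈ S, s ∈ B r) ∧
      Sup e h y S (m r)) → S.card ≤ n r ∧ (∀ s ∈ S, s ∈ B r) ∧ Sup e h y S (m r) := by
    intro r y
    by_cases hg : ∃ S : Finset K, S.card ≤ n r ∧ (∀ s ∈ S, s ∈ B r) ∧ Sup e h y S (m r)
    · obtain ⟨S, hS⟩ := hg
      exact ⟨S, fun _ => hS⟩
    · exact ⟨∅, fun h' => absurd h' hg⟩
  choose S hS using hS
  have hS' : ∀ r, ∀ᶠ y in (u : Filter Y), (S r y).card ≤ n r ∧ (∀ s ∈ S r y, s ∈ B r) ∧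
      Sup e h y (S r y) (m r) := by
    intro r
    filter_upwards [hs r] with y hy
    exact hS r y hy
  let P : ℕ → Y → Finset K := fun r => Nat.rec (fun y => S 0 y) (fun r Q y => Q y ∩ S (r + 1) y) r
  have hP0 : ∀ y, P 0 y = S 0 y := fun y => rfl
  have hPs : ∀ r y, P (r + 1) y = P r y ∩ S (r + 1) y := fun r y => rfl
  have hPmono : ∀ y r r', r ≤ r' → P r' y ⊆ P r y := by
    intro y r r' hr
    induction hr with
    | refl => exact Finset.Subset.refl _
    | step _ ih => rw [hPs]; exact Finset.inter_subset_left.trans ih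
  have hPS : ∀ y r, P r y ⊆ S r y := by
    intro y r
    cases r with
    | zero => rw [hP0]
    | succ r => rw [hPs]; exact Finset.inter_subset_right
  have hSup : ∀ r, ∀ᶠ y in (u : Filter Y),
      Sup e h y (P r y) (∑ i ∈ Finset.range (r + 1), m i) := by
    intro r
    induction r with
    | zero =>
      filter_upwards [hS' 0] with y hy
      rw [hP0]
      simpa using hy.2.2
    | succ r ih =>
      filter_upwards [ih, hS' (r + 1)] with y hy1 hy2
      rw [hPs, Finset.sum_range_succ]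
      exact hy1.inter hy2.2.2
  have ha : ∀ r, ∃ a, ∀ᶠ y in (u : Filter Y), (P r y).card = a := by
    intro r
    apply eventually_const u (fun y => (P r y).card) (n 0)
    filter_upwards [hS' 0] with y hy
    refine (Finset.card_le_card (hPmono y 0 r (Nat.zero_le r))).trans ?_
    rw [hP0]
    exact hy.1
  choose a ha using ha
  have hanti : ∀ r r', r ≤ r' → a r' ≤ a r := by
    intro r r' hr
    obtain ⟨y, hy1, hy2⟩ := ((ha r).and (ha r')).exists
    rw [← hy1, ← hy2]
    exact Finset.card_le_card (hPmono y r r' hr)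
  have hex : ∃ v, ∃ r, a r = v := ⟨a 0, 0, rfl⟩
  obtain ⟨r0, hr0⟩ := Nat.find_spec hex
  have hstab : ∀ r, r0 ≤ r → a r = a r0 := by
    intro r hr
    apply le_antisymm (hanti r0 r hr)
    rw [hr0]
    exact Nat.find_min' hex ⟨r, rfl⟩
  have hPeq : ∀ r, r0 ≤ r → ∀ᶠ y in (u : Filter Y), P r y = P r0 y := by
    intro r hr
    filter_upwards [ha r, ha r0] with y h1 h2
    apply Finset.eq_of_subset_of_card_le (hPmono y r0 r hr)
    rw [h1, h2, hstab r hr]
  have hTB : ∀ r, ∀ᶠ y in (u : Filter Y), ∀ s ∈ P r0 y, s ∈ B r := by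
    intro r
    filter_upwards [hPeq (max r r0) (le_max_right _ _), hS' r] with y h1 h2 s hs
    rw [← h1] at hs
    exact h2.2.1 s (hPS y r (hPmono y r (max r r0) (le_max_left _ _) hs))
  -- enumeration
  set N := a r0 with hN
  have hKn : N = 0 ∨ Nonempty K := by
    rcases Nat.eq_zero_or_pos N with h0 | h0
    · exact Or.inl h0
    · obtain ⟨y, hy⟩ := (ha r0).exists
      have : (P r0 y).Nonempty := by
        rw [← Finset.card_pos, hy]; exact h0
      exact Or.inr ⟨this.choose⟩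
  have henum : ∀ y, ∃ p : Fin N → K, (P r0 y).card = N →
      (∀ i, p i ∈ P r0 y) ∧ ∀ s ∈ P r0 y, ∃ i, p i = s := by
    intro y
    by_cases hy : (P r0 y).card = N
    · let E := (P r0 y).equivFinOfCardEq hy
      refine ⟨fun i => (E.symm i : K), fun _ => ⟨fun i => (E.symm i).2, fun s hs => ?_⟩⟩
      exact ⟨E ⟨s, hs⟩, by simp⟩
    · rcases hKn with h0 | ⟨⟨x0⟩⟩
      · exact ⟨fun i => absurd i.2 (by omega), fun h' => absurd h' hy⟩
      · exact ⟨fun _ => x0, fun h' => absurd h' hy⟩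
  choose p hp using henum
  obtain ⟨z, _, hlim⟩ := (isCompact_univ (X := Fin N → K)).ultrafilter_le_nhds'
    (Ultrafilter.map p u) Filter.univ_mem
  have hlim' : Tendsto p u (𝓝 z) := hlim
  have hz : ∀ i, Tendsto (fun y => p y i) u (𝓝 (z i)) := fun i =>
    (continuous_apply i).continuousAt.tendsto.comp hlim'
  have hzB : ∀ i, z i ∈ ⋂ r, B r := by
    intro i
    rw [mem_iInter]
    intro r
    apply (hB r).mem_of_tendsto (hz i)
    filter_upwards [hTB r, ha r0] with y h1 h2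
    exact h1 _ ((hp y h2).1 i)
  have hxx : ∀ i : Fin N, ∃ w : X, e w = z i := fun i => hBX (hzB i)
  choose x hx using hxx
  set M := ∑ i ∈ Finset.range (r0 + 1), m i with hM
  have claim : ∀ φ : C(Y, ℝ), (∀ i, |k φ (x i) - k 0 (x i)| < 1) →
      ∀ᶠ y in (u : Filter Y), |φ y| ≤ M := by
    intro φ hφ
    have hO : ∀ i : Fin N, ∃ O : Set K, IsOpen O ∧ e ⁻¹' O = {w | |k φ w - k 0 w| < 1} := by
      intro i
      have : IsOpen {w | |k φ w - k 0 w| < 1} :=
        isOpen_lt ((k φ).continuous.sub (k 0).continuous).abs continuous_const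
      exact he.isInducing.isOpen_iff.1 this
    choose O hO1 hO2 using hO
    have hev : ∀ᶠ y in (u : Filter Y), ∀ i, p y i ∈ O i := by
      rw [Filter.eventually_all]
      intro i
      apply (hz i)
      apply (hO1 i).mem_nhds
      rw [← hx i]
      have : x i ∈ e ⁻¹' O i := by rw [hO2]; exact hφ i
      exact this
    filter_upwards [hev, ha r0, hSup r0] with y h1 h2 h3
    have h4 := Sup.ext he.injective hc h3 (k φ) (k 0) (by
      intro w hw
      obtain ⟨i, hi⟩ := (hp y h2).2 _ hw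
      have h5 : e w ∈ O i := hi ▸ h1 i
      have h6 : w ∈ e ⁻¹' O i := h5
      rw [hO2] at h6
      exact h6)
    rw [hk, hk] at h4
    simpa using h4
  by_contra hcon
  push Not at hcon
  have hg : ∀ j : Y, ∃ g : C(Y, ℝ), g j = 0 ∧ ∀ᶠ y in (u : Filter Y), g y = 1 := by
    intro j
    have h1 := hcon j
    rw [Filter.not_le] at h1
    obtain ⟨O, hO, hOu⟩ := h1
    obtain ⟨O', hO'O, hO', hjO'⟩ := mem_nhds_iff.1 hO
    obtain ⟨g, hgc, hg0, hg1⟩ := CompletelyRegularSpace.completely_regular_isOpen j O' hO' hjO'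
    refine ⟨⟨fun y => (g y : ℝ), continuous_subtype_val.comp hgc⟩, by simp [hg0], ?_⟩
    have h2 : O'ᶜ ∈ (u : Filter Y) := by
      rw [Ultrafilter.mem_coe, Ultrafilter.compl_mem_iff_notMem]
      intro h
      exact hOu (Filter.mem_of_superset h hO'O)
    filter_upwards [h2] with y hy
    have : g y = 1 := hg1 hy
    simp [this]
  choose g hg0 hg1 using hg
  choose J δ hδ hJ using fun i => kc (x i) 0 1 one_pos
  let JJ : Finset Y := Finset.univ.biUnion J
  let Q : C(Y, ℝ) := ContinuousMap.const Y (|M| + 1) * ∏ j ∈ JJ, g j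
  have hQval : ∀ y, Q y = (|M| + 1) * ∏ j ∈ JJ, g j y := by
    intro y
    simp only [Q, ContinuousMap.mul_apply, ContinuousMap.const_apply, ContinuousMap.coe_prod,
      Finset.prod_apply]
  have hQ0 : ∀ i, |k Q (x i) - k 0 (x i)| < 1 := by
    intro i
    apply hJ i
    intro y hy
    have : Q y = 0 := by
      have hyJ : y ∈ JJ := Finset.mem_biUnion.2 ⟨i, Finset.mem_univ i, hy⟩
      have h0 : ∏ j ∈ JJ, g j y = 0 := Finset.prod_eq_zero (f := fun j => g j y) hyJ (hg0 y)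
      rw [hQval, h0, mul_zero]
    rw [this]
    simpa using hδ i
  have h1 := claim Q hQ0
  have h2 : ∀ᶠ y in (u : Filter Y), ∀ j ∈ JJ, g j y = 1 := by
    rw [Filter.eventually_all_finset]
    exact fun j _ => hg1 j
  obtain ⟨y, hy1, hy2⟩ := (h1.and h2).exists
  rw [hQval, Finset.prod_eq_one hy2, mul_one, abs_of_nonneg (by positivity)] at hy1
  have := le_abs_self M
  linarith

end Pool.Agent.W748.UK
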