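import Mathlib
import Pool.Agent.Helper102.KsdL

set_option autoImplicit false

namespace Pool.Agent.W748.UK

open Topology Filter Set

variable {X Y K : Type} [TopologicalSpace X] [TopologicalSpace Y] [TopologicalSpace K]

/-- Interpolation on a finite set. -/
theorem interp [CompactSpace K] [T2Space K] (S : Finset K) (v : K → ℝ) :
    ∃ H : C(K, ℝ), ∀ s ∈ S, H s = v s := by
  have hS : IsClosed (S : Set K) := S.finite_toSet.isClosed
  have : DiscreteTopology (S : Set K) := Finite.instDiscreteTopology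
  obtain ⟨g, hg⟩ := ContinuousMap.exists_restrict_eq hS
    (⟨fun s => v s.1, continuous_of_discreteTopology⟩ : C((S : Set K), ℝ))
  refine ⟨g, fun s hs => ?_⟩
  exact congrArg (fun q : C((S : Set K), ℝ) => q ⟨s, hs⟩) hg

/-- `S` is a coarse support of the evaluation at `y`, with constant `M`. -/
def Sup (e : C(X, K)) (h : C(X, ℝ) → C(Y, ℝ)) (y : Y) (S : Finset K) (M : ℝ) : Prop :=
  ∀ F G : C(K, ℝ), (∀ s ∈ S, |F s - G s| < 1) → |h (F.comp e) y - h (G.comp e) y| ≤ M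

theorem Sup.mono {e : C(X, K)} {h : C(X, ℝ) → C(Y, ℝ)} {y : Y} {S : Finset K} {M M' : ℝ}
    (H : Sup e h y S M) (hM : M ≤ M') : Sup e h y S M' :=
  fun F G hFG => (H F G hFG).trans hM

theorem Sup.inter [CompactSpace K] [T2Space K] [DecidableEq K] {e : C(X, K)}
    {h : C(X, ℝ) → C(Y, ℝ)} {y : Y} {S1 S2 : Finset K} {M1 M2 : ℝ}
    (H1 : Sup e h y S1 M1) (H2 : Sup e h y S2 M2) : Sup e h y (S1 ∩ S2) (M1 + M2) := by
  intro F G hFG
  obtain ⟨H, hH⟩ := interp (S1 ∪ S2) (fun s => if s ∈ S1 then F s else G s)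
  have h1 : |h (F.comp e) y - h (H.comp e) y| ≤ M1 := by
    apply H1
    intro s hs
    rw [hH s (Finset.mem_union_left _ hs), if_pos hs]
    simp
  have h2 : |h (H.comp e) y - h (G.comp e) y| ≤ M2 := by
    apply H2
    intro s hs
    rw [hH s (Finset.mem_union_right _ hs)]
    by_cases hs1 : s ∈ S1
    · rw [if_pos hs1]
      exact hFG s (Finset.mem_inter.2 ⟨hs1, hs⟩)
    · rw [if_neg hs1]
      simp
  calc |h (F.comp e) y - h (G.comp e) y|
      = |(h (F.comp e) y - h (H.comp e) y) + (h (H.comp e) y - h (G.comp e) y)| := by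
        congr 1; ring
    _ ≤ _ := (abs_add_le _ _).trans (add_le_add h1 h2)

/-- Passing to all continuous functions on `X`. -/
theorem Sup.ext [CompactSpace K] [T2Space K] {e : C(X, K)} (he : Function.Injective e)
    {h : C(X, ℝ) → C(Y, ℝ)}
    (hc : ∀ (y : Y) (f : C(X, ℝ)) (ε : ℝ), 0 < ε → ∃ F : Finset X, ∃ δ : ℝ, 0 < δ ∧
      ∀ g : C(X, ℝ), (∀ x ∈ F, |g x - f x| < δ) → |h g y - h f y| < ε)
    {y : Y} {S : Finset K} {M : ℝ} (H : Sup e h y S M) (f g : C(X, ℝ))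
    (hfg : ∀ x, e x ∈ S → |f x - g x| < 1) : |h f y - h g y| ≤ M := by
  classical
  refine le_of_forall_pos_lt_add fun ε hε => ?_
  obtain ⟨F1, δ1, hδ1, hF1⟩ := hc y f (ε / 2) (by positivity)
  obtain ⟨F2, δ2, hδ2, hF2⟩ := hc y g (ε / 2) (by positivity)
  have hext : ∀ q : C(X, ℝ), ∃ Q : C(K, ℝ), (∀ x ∈ F1 ∪ F2, Q (e x) = q x) ∧
      (∀ s ∈ S, (∀ x, e x = s → Q s = q x) ∧ ((¬ ∃ x, e x = s) → Q s = 0)) := by
    intro q
    obtain ⟨Q, hQ⟩ := interp (S ∪ (F1 ∪ F2).image e)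
      (fun s => if hs : ∃ x, e x = s then q hs.choose else 0)
    have hval : ∀ x, e x ∈ S ∪ (F1 ∪ F2).image e → Q (e x) = q x := by
      intro x hx
      have hs : ∃ x', e x' = e x := ⟨x, rfl⟩
      rw [hQ _ hx, dif_pos hs]
      rw [he hs.choose_spec]
    refine ⟨Q, fun x hx => hval x (Finset.mem_union_right _ (Finset.mem_image_of_mem _ hx)),
      fun s hs => ⟨?_, fun hn => ?_⟩⟩
    · rintro x rfl
      exact hval x (Finset.mem_union_left _ hs)
    · rw [hQ s (Finset.mem_union_left _ hs), dif_neg hn]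
  obtain ⟨Ff, hFf1, hFf2⟩ := hext f
  obtain ⟨Gg, hGg1, hGg2⟩ := hext g
  have h1 : |h (Ff.comp e) y - h f y| < ε / 2 := by
    apply hF1
    intro x hx
    have : (Ff.comp e) x = f x := hFf1 x (Finset.mem_union_left _ hx)
    rw [this]
    simpa using hδ1
  have h2 : |h (Gg.comp e) y - h g y| < ε / 2 := by
    apply hF2
    intro x hx
    have : (Gg.comp e) x = g x := hGg1 x (Finset.mem_union_right _ hx)
    rw [this]
    simpa using hδ2
  have h3 : |h (Ff.comp e) y - h (Gg.comp e) y| ≤ M := by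
    apply H
    intro s hs
    by_cases hx : ∃ x, e x = s
    · obtain ⟨x, hx⟩ := hx
      rw [(hFf2 s hs).1 x hx, (hGg2 s hs).1 x hx]
      exact hfg x (hx ▸ hs)
    · rw [(hFf2 s hs).2 hx, (hGg2 s hs).2 hx]
      simp
  have h1' := abs_lt.1 h1
  have h2' := abs_lt.1 h2
  have h3' := abs_le.1 h3
  rw [abs_lt]
  constructor <;> linarith [h1'.1, h1'.2, h2'.1, h2'.2, h3'.1, h3'.2]

end Pool.Agent.W748.UK
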