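import Pool.Agent.W748.UK.Conv

set_option autoImplicit false

namespace Pool.Agent.W748.UK

open Topology Filter Set
open Pool.Agent.Helper102.KsdL

variable {X Y K : Type} [TopologicalSpace X] [TopologicalSpace Y] [TopologicalSpace K]

theorem closed_sup [CompactSpace K] (e : C(X, K)) (h : C(X, ℝ) → C(Y, ℝ)) (B : Set K)
    (hB : IsClosed B) (n : ℕ) (m : ℝ) :
    IsClosed {y : Y | ∃ z : Fin n → K, (∀ i, z i ∈ B) ∧ ∀ F G : C(K, ℝ),
      (∀ i, |F (z i) - G (z i)| < 1) → |h (F.comp e) y - h (G.comp e) y| ≤ m} := by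
  have hR : IsClosed {q : (Fin n → K) × Y | (∀ i, q.1 i ∈ B) ∧ ∀ F G : C(K, ℝ),
      (∀ i, |F (q.1 i) - G (q.1 i)| < 1) → |h (F.comp e) q.2 - h (G.comp e) q.2| ≤ m} := by
    have h1 : IsClosed {q : (Fin n → K) × Y | ∀ i, q.1 i ∈ B} := by
      rw [Set.ofPred_forall]
      exact isClosed_iInter fun i => hB.preimage ((continuous_apply i).comp continuous_fst)
    have h2 : IsClosed {q : (Fin n → K) × Y | ∀ F G : C(K, ℝ),
      (∀ i, |F (q.1 i) - G (q.1 i)| < 1) → |h (F.comp e) q.2 - h (G.comp e) q.2| ≤ m} := by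
      rw [Set.ofPred_forall]
      refine isClosed_iInter fun F => ?_
      rw [Set.ofPred_forall]
      refine isClosed_iInter fun G => ?_
      have h3 : IsOpen {q : (Fin n → K) × Y | ∀ i, |F (q.1 i) - G (q.1 i)| < 1} := by
        rw [Set.ofPred_forall]
        refine isOpen_iInter_of_finite fun i => ?_
        exact isOpen_lt (((F.continuous.comp ((continuous_apply i).comp continuous_fst)).sub
          (G.continuous.comp ((continuous_apply i).comp continuous_fst))).abs) continuous_const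
      have h4 : IsClosed {q : (Fin n → K) × Y | |h (F.comp e) q.2 - h (G.comp e) q.2| ≤ m} :=
        isClosed_le ((((h (F.comp e)).continuous.comp continuous_snd).sub
          ((h (G.comp e)).continuous.comp continuous_snd)).abs) continuous_const
      have h5 := h3.isClosed_compl.union h4
      convert h5 using 1
      ext q
      simp only [Set.mem_ofPred_eq, Set.mem_union, Set.mem_compl_iff]
      exact imp_iff_not_or
    exact h1.inter h2
  have h6 := (isClosedMap_snd_of_compactSpace (X := Fin n → K) (Y := Y)) _ hR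
  convert h6 using 1
  ext y
  simp only [Set.mem_ofPred_eq, Set.mem_image, Prod.exists, exists_eq_right]

theorem main [T35Space Y]
    (hX : ∃ (K : Type) (_ : TopologicalSpace K), CompactSpace K ∧ T2Space K ∧
      ∃ e : X → K, Topology.IsEmbedding e ∧
        ∃ A : ℕ → ℕ → Set K, (∀ n m, IsCompact (A n m)) ∧ Set.range e = ⋂ n, ⋃ m, A n m)
    (h : C(X, ℝ) → C(Y, ℝ)) (k : C(Y, ℝ) → C(X, ℝ)) (hk : ∀ φ, h (k φ) = φ)
    (hc : ∀ (y : Y) (f : C(X, ℝ)) (ε : ℝ), 0 < ε → ∃ F : Finset X, ∃ δ : ℝ, 0 < δ ∧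
      ∀ g : C(X, ℝ), (∀ x ∈ F, |g x - f x| < δ) → |h g y - h f y| < ε)
    (hco : ∀ y : Y, ∃ F : Finset X, ∃ M : ℝ, ∀ f g : C(X, ℝ), (∀ x ∈ F, |f x - g x| < 1) →
      |h f y - h g y| ≤ M)
    (kc : ∀ (x : X) (φ : C(Y, ℝ)) (ε : ℝ), 0 < ε → ∃ J : Finset Y, ∃ δ : ℝ, 0 < δ ∧
      ∀ ψ : C(Y, ℝ), (∀ y ∈ J, |ψ y - φ y| < δ) → |k ψ x - k φ x| < ε) :
    ∃ (K : Type) (_ : TopologicalSpace K), CompactSpace K ∧ T2Space K ∧
      ∃ e : Y → K, Topology.IsEmbedding e ∧
        ∃ A : ℕ → ℕ → Set K, (∀ n m, IsCompact (A n m)) ∧ Set.range e = ⋂ n, ⋃ m, A n m := by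
  classical
  obtain ⟨K, _, hKc, hK2, e', he', A, hAc, hA⟩ := hX
  let e : C(X, K) := ⟨e', he'.continuous⟩
  have he : IsEmbedding e := he'
  have hAe : Set.range e = ⋂ n, ⋃ m, A n m := hA
  -- increasing compact sets
  let A' : ℕ → ℕ → Set K := fun k j => ⋃ i ∈ Finset.range (j + 1), A k i
  have hA'c : ∀ k j, IsCompact (A' k j) := fun k j =>
    (Finset.range (j + 1)).isCompact_biUnion fun i _ => hAc k i
  have hA'mono : ∀ k i j, i ≤ j → A' k i ⊆ A' k j := by
    intro k i j hij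
    apply Set.biUnion_subset_biUnion_left
    intro a ha
    simp only [Finset.coe_range, Set.mem_Iio] at ha ⊢
    omega
  have hA'sub : ∀ k j, A' k j ⊆ ⋃ m, A k m := by
    intro k j
    apply Set.iUnion₂_subset
    intro i _
    exact Set.subset_iUnion _ _
  have hcovX : ∀ (x : X) k, ∃ j, e x ∈ A' k j := by
    intro x k
    have h1 : e x ∈ ⋂ n, ⋃ m, A n m := by rw [← hAe]; exact ⟨x, rfl⟩
    obtain ⟨j, hj⟩ := Set.mem_iUnion.1 (Set.mem_iInter.1 h1 k)
    exact ⟨j, Set.mem_biUnion (by simp) hj⟩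
  let D : ℕ → ℕ × ℕ × ℕ → Set Y := fun r q =>
    {y : Y | ∃ z : Fin q.1 → K, (∀ i, z i ∈ A' r q.2.2) ∧ ∀ F G : C(K, ℝ),
      (∀ i, |F (z i) - G (z i)| < 1) → |h (F.comp e) y - h (G.comp e) y| ≤ (q.2.1 : ℝ)}
  let dec : ℕ → ℕ × ℕ × ℕ := fun t =>
    ((Nat.unpair t).1, (Nat.unpair (Nat.unpair t).2).1, (Nat.unpair (Nat.unpair t).2).2)
  have hdec : ∀ q : ℕ × ℕ × ℕ, dec (Nat.pair q.1 (Nat.pair q.2.1 q.2.2)) = q := by
    intro q
    simp [dec]
  refine of_covers (fun r t => D r (dec t)) ?_ ?_ ?_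
  · intro r t
    exact closed_sup e h _ (hA'c _ _).isClosed _ _
  · intro r y
    obtain ⟨F, M, hFM⟩ := hco y
    obtain ⟨m, hm⟩ := exists_nat_ge M
    obtain ⟨j, hj⟩ : ∃ j, ∀ x ∈ F, e x ∈ A' r j := by
      choose j hj using fun x => hcovX x r
      exact ⟨F.sup j, fun x hx => hA'mono r _ _ (Finset.le_sup hx) (hj x)⟩
    refine ⟨Nat.pair F.card (Nat.pair m j), ?_⟩
    have h1 : dec (Nat.pair F.card (Nat.pair m j)) = (F.card, m, j) := hdec (F.card, m, j)
    show y ∈ D r (dec (Nat.pair F.card (Nat.pair m j)))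
    rw [h1]
    let E := F.equivFin
    refine ⟨fun i => e (E.symm i), fun i => hj _ (E.symm i).2, fun Φ Ψ hΦΨ => ?_⟩
    refine (hFM _ _ ?_).trans hm
    intro x hx
    have := hΦΨ (E ⟨x, hx⟩)
    simpa using this
  · intro u t ht
    refine conv e he h k hk hc kc u (fun r => A' r (dec (t r)).2.2)
      (fun r => (hA'c _ _).isClosed) ?_ (fun r => (dec (t r)).1) (fun r => ((dec (t r)).2.1 : ℝ)) ?_
    · rw [hAe]
      exact Set.iInter_mono fun r => hA'sub r _
    · intro r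
      filter_upwards [ht r] with y hy
      obtain ⟨z, hz1, hz2⟩ := hy
      refine ⟨Finset.univ.image z, ?_, ?_, ?_⟩
      · refine Finset.card_image_le.trans ?_
        simp
      · intro s hs
        obtain ⟨i, _, rfl⟩ := Finset.mem_image.1 hs
        exact hz1 i
      · intro F G hFG
        exact hz2 F G fun i => hFG _ (Finset.mem_image_of_mem _ (Finset.mem_univ i))

end Pool.Agent.W748.UK
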